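import Pool.Agent.Lib.MP_e1f7e2_al.SU.Iface2

set_option autoImplicit false

/-!
Project SU3 (MP_e1f7e2_al): module BND, strict moves can be replaced by bounded strict moves.
-/

open MvPolynomial Filter

namespace Pool.Agent.Lib.MP_e1f7e2_al.SU.H25

/-- exceptional values of `N` -/
lemma exc1 {q e κ δ : ℝ} (dz : ∃ z : ℤ, δ = z) (hδ : δ ≠ 0)
    (hq : ∀ r : ℚ, q ≠ r * e) :
    ∀ᶠ N : ℕ in atTop, ∀ r : ℚ, κ + N * δ * q ≠ r * e := by
  rw [← Nat.cofinite_eq_atTop]
  have hfin : {N : ℕ | ∃ r : ℚ, κ + N * δ * q = r * e}.Finite := by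
    apply Set.Subsingleton.finite
    rintro N ⟨r, hr⟩ N' ⟨r', hr'⟩
    by_contra hne
    obtain ⟨z, hz⟩ := dz
    have hz0 : (z : ℝ) ≠ 0 := by rw [← hz]; exact hδ
    have hN : ((N : ℝ) - N') ≠ 0 := by
      intro h
      apply hne
      have : (N : ℝ) = N' := by linarith
      exact_mod_cast this
    have h1 : ((N : ℝ) - N') * z * q = (r - r') * e := by
      rw [hz] at hr hr'
      linarith
    apply hq (((r - r') / ((N - N') * z) : ℚ))
    push_cast
    field_simp
    linarith
  have := hfin.eventually_cofinite_notMem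
  filter_upwards [this] with N hN r h
  exact hN ⟨r, h⟩

lemma exc (E : Finset ℝ) (Dm : ℕ) (q : ℝ) (hq : ∀ e ∈ E, 0 < e → ∀ r : ℚ, q ≠ r * e) :
    ∀ᶠ N : ℕ in atTop, ∀ e ∈ E, ∀ e' ∈ E, ∀ e'' ∈ E, ∀ j ∈ Finset.range (Dm + 2),
      ∀ d ∈ Finset.range (Dm + 1), ∀ d' ∈ Finset.range (Dm + 1),
      0 < e → ((d' : ℝ) - j * d ≠ 0) → ∀ r : ℚ, e'' - j * e' + N * ((d' : ℝ) - j * d) * q ≠ r * e := by
  rw [Finset.eventually_all]
  intro e he
  rw [Finset.eventually_all]
  intro e' _
  rw [Finset.eventually_all]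
  intro e'' _
  rw [Finset.eventually_all]
  intro j _
  rw [Finset.eventually_all]
  intro d _
  rw [Finset.eventually_all]
  intro d' _
  by_cases h1 : 0 < e
  · by_cases h2 : (d' : ℝ) - j * d ≠ 0
    · have := exc1 (κ := e'' - j * e') (q := q) (e := e) (δ := (d' : ℝ) - j * d)
        ⟨(d' : ℤ) - j * d, by push_cast; ring⟩ h2 (hq e he h1)
      filter_upwards [this] with N hN _ _
      exact hN
    · exact Eventually.of_forall (fun N _ h => absurd h h2)
  · exact Eventually.of_forall (fun N h => absurd h h1)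


section

variable {K : Type*} [Field K] {w : Fin 3 → ℝ}

/-- a strict move by one monomial -/
lemma mono_move (F : Facts K w) {F1 F2 F3 : MvPolynomial (Fin 3) K} (i j : ℕ)
    (h1 : F1 ≠ 0) (h2 : F2 ≠ 0) (h3 : 0 < dg w F3)
    (h : (i : ℝ) * dg w F1 + j * dg w F2 = dg w F3) :
    ∃ P' : MvPolynomial (Fin 2) K, P'.totalDegree ≤ i + j ∧
      dg w (F3 + ev P' F1 F2) < dg w F3 := by
  have hd : dg w (F1 ^ i * F2 ^ j) = dg w F3 := by
    rw [F.d.mul _ _ (pow_ne_zero _ h1) (pow_ne_zero _ h2), F.d.pow, F.d.pow, h]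
  obtain ⟨c, hc, hlt⟩ := F.d.lead F3 (F1 ^ i * F2 ^ j) h3 hd.symm
  refine ⟨-(C c * (X 0 ^ i * X 1 ^ j)), ?_, ?_⟩
  · rw [totalDegree_neg]
    refine (totalDegree_mul _ _).trans ?_
    rw [totalDegree_C, zero_add]
    refine (totalDegree_mul _ _).trans ?_
    rw [totalDegree_X_pow, totalDegree_X_pow]
  · rw [ev_neg, ev_mul, ev_mul, ev_pow, ev_pow, ev_X0, ev_X1, ev_C]
    simpa [sub_eq_add_neg] using hlt

lemma ne_zero_of_dg (F : Facts K w) {f : MvPolynomial (Fin 3) K} (h : 0 < dg w f) : f ≠ 0 := by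
  rintro rfl
  rw [F.d.zero] at h
  exact lt_irrefl _ h

/-- total degree from the virtual degree -/
lemma totalDegree_le_of_vdg (F : Facts K w) {a b M : ℝ} {B : ℕ} (hM : 0 < M) (ha : M ≤ a)
    (hb : M ≤ b) (P : MvPolynomial (Fin 2) K) (h : vdg a b P ≤ B * M) : P.totalDegree ≤ B := by
  unfold totalDegree
  apply Finset.sup_le
  intro m hm
  have h1 := F.p.ge a b P m hm
  have h2 : ((m 0 : ℝ) + m 1) * M ≤ B * M := by
    have h3 : (m 0 : ℝ) * M ≤ m 0 * a := mul_le_mul_of_nonneg_left ha (Nat.cast_nonneg _)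
    have h4 : (m 1 : ℝ) * M ≤ m 1 * b := mul_le_mul_of_nonneg_left hb (Nat.cast_nonneg _)
    nlinarith
  have h5 : (m 0 : ℝ) + m 1 ≤ B := le_of_mul_le_mul_right h2 hM
  have h6 : m 0 + m 1 ≤ B := by exact_mod_cast h5
  have h7 : (m.sum fun _ e => e) = m 0 + m 1 := by
    rw [Finsupp.sum_fintype _ _ (fun _ => rfl), Fin.sum_univ_two]
  rw [h7]
  exact h6

lemma pq_ineq {p p' : ℕ} (h : 2 ≤ p) (h' : 2 ≤ p') (hn : ¬ (p = 2 ∧ p' = 2)) :
    p * p' + 6 * (p + p') ≤ 6 * (p * p') := by
  obtain ⟨a, rfl⟩ := Nat.exists_eq_add_of_le h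
  obtain ⟨b, rfl⟩ := Nat.exists_eq_add_of_le h'
  have hab : 1 ≤ a + b := by
    by_contra hcon
    exact hn ⟨by omega, by omega⟩
  have e1 : (2 + a) * (2 + b) = 4 + 2 * a + 2 * b + a * b := by ring
  rw [e1]
  have := Nat.zero_le (a * b)
  omega

lemma vd_ineq {p p' m i j γ b v r : ℝ} (hpp : p * p' + 6 * (p + p') ≤ 6 * (p * p'))
    (hm : 0 ≤ m) (hγ : 0 ≤ γ) (hb : 0 ≤ b) (t : 0 ≤ (i * p + j * p') * γ)
    (hv : v = m * p * p' * γ + (i * p + j * p') * γ)
    (hr : m * ((p * p' - p - p') * γ + b) + (i * p + j * p') * γ ≤ r) : v ≤ 6 * r := by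
  have h1 : 0 ≤ m * γ := mul_nonneg hm hγ
  have h2 : 0 ≤ m * b := mul_nonneg hm hb
  have h3 : m * γ * (p * p' + 6 * (p + p')) ≤ m * γ * (6 * (p * p')) :=
    mul_le_mul_of_nonneg_left hpp h1
  have h4 : m * ((p * p' - p - p') * γ + b) + (i * p + j * p') * γ =
    m * γ * (p * p') - m * γ * (p + p') + m * b + (i * p + j * p') * γ := by ring
  rw [h4] at hr
  have h5 : v = m * γ * (p * p') + (i * p + j * p') * γ := by rw [hv]; ring
  linarith

theorem bnd (F : Facts K w) (S : SuAll K w) : BndStatement K w := by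
  intro E Dm q hq hE hr
  classical
  -- bounds for the elements of `E`
  obtain ⟨Em, hEm0, hEm⟩ : ∃ Em : ℝ, 0 ≤ Em ∧ ∀ e ∈ E, e ≤ Em := by
    refine ⟨∑ e ∈ E, e, Finset.sum_nonneg hE, fun e he => ?_⟩
    exact Finset.single_le_sum (f := fun e : ℝ => e) hE he
  obtain ⟨I0, hI0⟩ : ∃ I0 : ℕ, ∀ e ∈ E, 0 < e → Em ≤ I0 * e := by
    refine ⟨∑ e ∈ E, ⌈Em / e⌉₊, fun e he h0 => ?_⟩
    have h1 : Em / e ≤ ((∑ e ∈ E, ⌈Em / e⌉₊ : ℕ) : ℝ) := by
      refine (Nat.le_ceil _).trans ?_
      exact_mod_cast Finset.single_le_sum (f := fun e : ℝ => ⌈Em / e⌉₊) (fun _ _ => Nat.zero_le _) he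
    rwa [div_le_iff₀ h0] at h1
  obtain ⟨N1, hN1⟩ := eventually_atTop.mp (exc E Dm q hr)
  obtain ⟨N2, hN2⟩ := exists_nat_gt (Em / q)
  refine ⟨6 * (Dm + 1) + I0, max N1 (N2 + 1), ?_⟩
  intro N hN F1 F2 F3 P d1 d2 d3 e1 e2 e3 hfr hd1 hd2 hd3 he1 he2 he3 hF1 hF2 hF3 hnz hlt
  have hEx := hN1 N ((le_max_left _ _).trans hN)
  have hNpos : (1 : ℝ) ≤ N := by
    have : N2 + 1 ≤ N := (le_max_right _ _).trans hN
    have h2 : 1 ≤ N := by omega
    exact_mod_cast h2
  have hNq : Em ≤ N * q := by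
    have : N2 + 1 ≤ N := (le_max_right _ _).trans hN
    have h2 : (N2 : ℝ) ≤ N := by
      have : N2 ≤ N := by omega
      exact_mod_cast this
    have h3 : Em / q < N := lt_of_lt_of_le hN2 h2
    rw [div_lt_iff₀ hq] at h3
    exact h3.le
  have hNq0 : 0 < N * q := by positivity
  have p1 : 0 < dg w F1 := F.b.dpos F1 F2 F3 hfr
  have p2 : 0 < dg w F2 := F.b.dpos F2 F1 F3 hfr.swap12
  have p3 : 0 < dg w F3 := F.b.dpos F3 F1 F2 hfr.rot'
  have n1 := ne_zero_of_dg F p1
  have n2 := ne_zero_of_dg F p2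
  have n3 := ne_zero_of_dg F p3
  have hdm3 : dg w F3 ≤ (Dm + 1) * (N * q) := by
    rw [hF3]
    have : (d3 : ℝ) ≤ Dm := by exact_mod_cast hd3
    have h2 := hEm e3 he3
    nlinarith
  -- lower bounds
  have low1 : 1 ≤ d1 → N * q ≤ dg w F1 := by
    intro h
    have : (1 : ℝ) ≤ d1 := by exact_mod_cast h
    have h2 := hE e1 he1
    rw [hF1]
    nlinarith
  have low2 : 1 ≤ d2 → N * q ≤ dg w F2 := by
    intro h
    have : (1 : ℝ) ≤ d2 := by exact_mod_cast h
    have h2 := hE e2 he2
    rw [hF2]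
    nlinarith
  by_cases hdeg : dg w (ev P F1 F2) < vdg (dg w F1) (dg w F2) P
  · -- degenerate
    obtain ⟨p, p', m, γ, H⟩ := S.su F1 F2 P (F.b.bpos F1 F2 F3 hfr) hdeg
    have hp : (1 : ℝ) ≤ p := by exact_mod_cast H.hp
    have hp' : (1 : ℝ) ≤ p' := by exact_mod_cast H.hq
    have hm1 : (1 : ℝ) ≤ m := by exact_mod_cast H.hm
    have hγ := H.hγ
    -- both `d1`, `d2` are positive
    have hd1' : 1 ≤ d1 := by
      by_contra hcon
      have h0 : d1 = 0 := by omega
      have h20 : d2 ≠ 0 := fun h => hnz ⟨h0, h⟩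
      have e1p : 0 < e1 := by
        rw [hF1, h0] at p1
        simpa using p1
      have := hEx e1 he1 e2 he2 e2 he2 0 (Finset.mem_range.mpr (by omega)) 0
        (Finset.mem_range.mpr (by omega)) d2 (Finset.mem_range.mpr (by omega)) e1p
        (by simpa using h20) ((p' : ℚ) / p)
      apply this
      have q1 : e1 = p * γ := by rw [← H.df, hF1, h0]; simp
      have q2 : e2 + N * d2 * q = p' * γ := by rw [← H.dg', hF2]
      have hp0 : (p : ℝ) ≠ 0 := by linarith
      push_cast
      rw [q1]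
      field_simp
      linarith
    have hd2' : 1 ≤ d2 := by
      by_contra hcon
      have h0 : d2 = 0 := by omega
      have h20 : d1 ≠ 0 := fun h => hnz ⟨h, h0⟩
      have e1p : 0 < e2 := by
        rw [hF2, h0] at p2
        simpa using p2
      have := hEx e2 he2 e1 he1 e1 he1 0 (Finset.mem_range.mpr (by omega)) 0
        (Finset.mem_range.mpr (by omega)) d1 (Finset.mem_range.mpr (by omega)) e1p
        (by simpa using h20) ((p : ℚ) / p')
      apply this
      have q1 : e2 = p' * γ := by rw [← H.dg', hF2, h0]; simp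
      have q2 : e1 + N * d1 * q = p * γ := by rw [← H.df, hF1]
      have hp0 : (p' : ℝ) ≠ 0 := by linarith
      push_cast
      rw [q1]
      field_simp
      linarith
    have l1 := low1 hd1'
    have l2 := low2 hd2'
    have hgP : dg w (ev P F1 F2) = dg w F3 := by
      by_contra hne
      have h1 : ev P F1 F2 = (F3 + ev P F1 F2) - F3 := by ring
      rcases lt_or_gt_of_ne hne with h | h
      · have := F.d.add_left _ _ h
        rw [this] at hlt
        exact lt_irrefl _ hlt
      · have := F.d.add_right _ _ h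
        rw [this] at hlt
        exact lt_asymm hlt h
    by_cases hq1 : p' = 1
    · -- `F1 - c F2 ^ p`
      have hdF : ((p : ℕ) : ℝ) * dg w F2 + (0 : ℕ) * dg w F3 = dg w F1 := by
        rw [H.df, H.dg', hq1]; simp
      obtain ⟨P', hP', hP''⟩ := mono_move F p 0 n2 n3 p1 hdF
      refine ⟨P', hP'.trans ?_, Or.inr (Or.inl hP'')⟩
      have h1 : (p : ℝ) * (N * q) ≤ (Dm + 1) * (N * q) := by
        have h3 : dg w F1 ≤ (Dm + 1) * (N * q) := by
          rw [hF1]
          have : (d1 : ℝ) ≤ Dm := by exact_mod_cast hd1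
          have h2 := hEm e1 he1
          nlinarith
        have h4 : (p : ℝ) * (N * q) ≤ p * dg w F2 := by
          apply mul_le_mul_of_nonneg_left l2; linarith
        simp at hdF
        linarith
      have h2 : (p : ℝ) ≤ Dm + 1 := le_of_mul_le_mul_right h1 hNq0
      have h3 : p ≤ Dm + 1 := by exact_mod_cast h2
      omega
    by_cases hq2 : p = 1
    · have hdF : ((p' : ℕ) : ℝ) * dg w F1 + (0 : ℕ) * dg w F3 = dg w F2 := by
        rw [H.df, H.dg', hq2]; simp
      obtain ⟨P', hP', hP''⟩ := mono_move F p' 0 n1 n3 p2 hdF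
      refine ⟨P', hP'.trans ?_, Or.inr (Or.inr hP'')⟩
      have h1 : (p' : ℝ) * (N * q) ≤ (Dm + 1) * (N * q) := by
        have h3 : dg w F2 ≤ (Dm + 1) * (N * q) := by
          rw [hF2]
          have : (d2 : ℝ) ≤ Dm := by exact_mod_cast hd2
          have h2 := hEm e2 he2
          nlinarith
        have h4 : (p' : ℝ) * (N * q) ≤ p' * dg w F1 := by
          apply mul_le_mul_of_nonneg_left l1; linarith
        simp at hdF
        linarith
      have h2 : (p' : ℝ) ≤ Dm + 1 := le_of_mul_le_mul_right h1 hNq0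
      have h3 : p' ≤ Dm + 1 := by exact_mod_cast h2
      omega
    · -- `p, p' ≥ 2`: `P` itself is bounded
      refine ⟨P, ?_, Or.inl hlt⟩
      obtain ⟨i, j, hv, hl⟩ := S.low F1 F2 P p p' m γ H
      have hp2 : 2 ≤ p := by have := H.hp; omega
      have hp2' : 2 ≤ p' := by have := H.hq; omega
      have hnn : ¬ (p = 2 ∧ p' = 2) := by
        rintro ⟨rfl, rfl⟩
        have := H.cop
        norm_num at this
      have hpp : p * p' + 6 * (p + p') ≤ 6 * (p * p') := pq_ineq hp2 hp2' hnn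
      have hpp' : (p : ℝ) * p' + 6 * (p + p') ≤ 6 * (p * p') := by exact_mod_cast hpp
      have hvle : vdg (dg w F1) (dg w F2) P ≤ 6 * dg w F3 := by
        rw [hgP] at hl
        refine vd_ineq hpp' (by linarith) hγ.le (F.b.nn F1 F2) ?_ hv hl
        positivity
      have hvle' : vdg (dg w F1) (dg w F2) P ≤ ((6 * (Dm + 1) : ℕ) : ℝ) * (N * q) := by
        push_cast
        nlinarith
      have := totalDegree_le_of_vdg F hNq0 l1 l2 P hvle'
      omega
  · -- nondegenerate
    have hle := F.p.ev_le F1 F2 P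
    have hgP : dg w (ev P F1 F2) = dg w F3 := by
      by_contra hne
      rcases lt_or_gt_of_ne hne with h | h
      · have := F.d.add_left _ _ h
        rw [this] at hlt
        exact lt_irrefl _ hlt
      · have := F.d.add_right _ _ h
        rw [this] at hlt
        exact lt_asymm hlt h
    have hv : vdg (dg w F1) (dg w F2) P = dg w F3 := by
      rw [← hgP]; exact le_antisymm (not_lt.mp hdeg) hle
    have hP0 : P ≠ 0 := by
      rintro rfl
      rw [ev_zero, F.d.zero] at hgP
      rw [← hgP] at p3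
      exact lt_irrefl _ p3
    obtain ⟨mm, -, hmm⟩ := F.p.att (dg w F1) (dg w F2) P hP0
    rw [hv] at hmm
    obtain ⟨P', hP', hP''⟩ := mono_move F (mm 0) (mm 1) n1 n2 p3 hmm
    refine ⟨P', hP'.trans ?_, Or.inl hP''⟩
    generalize mm 0 = i at *
    generalize mm 1 = j at *
    have i0 : (0 : ℝ) ≤ i := Nat.cast_nonneg _
    have j0 : (0 : ℝ) ≤ j := Nat.cast_nonneg _
    have e1n := hE e1 he1
    have e2n := hE e2 he2
    have e3n := hE e3 he3
    rcases Nat.eq_zero_or_pos d1 with h10 | h1p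
    · rcases Nat.eq_zero_or_pos d2 with h20 | h2p
      · exact absurd ⟨h10, h20⟩ hnz
      · -- `d1 = 0 < d2`
        have l2 := low2 h2p
        have e1p : 0 < e1 := by
          rw [hF1, h10] at p1
          simpa using p1
        have jb : j ≤ Dm + 1 := by
          have h1 : (j : ℝ) * (N * q) ≤ (Dm + 1) * (N * q) := by
            have h4 : (j : ℝ) * (N * q) ≤ j * dg w F2 := mul_le_mul_of_nonneg_left l2 j0
            have h5 : 0 ≤ (i : ℝ) * dg w F1 := by positivity
            linarith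
          have h2 : (j : ℝ) ≤ Dm + 1 := le_of_mul_le_mul_right h1 hNq0
          exact_mod_cast h2
        have hδ : (d3 : ℝ) - j * d2 = 0 := by
          by_contra hδ
          have := hEx e1 he1 e2 he2 e3 he3 j (Finset.mem_range.mpr (by omega)) d2
            (Finset.mem_range.mpr (by omega)) d3 (Finset.mem_range.mpr (by omega)) e1p hδ (i : ℚ)
          apply this
          rw [hF1, hF2, hF3, h10] at hmm
          push_cast at hmm ⊢
          linarith
        have hi : (i : ℝ) * e1 ≤ I0 * e1 := by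
          have h1 := hI0 e1 he1 e1p
          have h2 := hEm e3 he3
          rw [hF1, hF2, hF3, h10] at hmm
          have h3 : (d3 : ℝ) = j * d2 := by linarith
          rw [h3] at hmm
          have h4 : 0 ≤ (j : ℝ) * e2 := by positivity
          push_cast at hmm
          linarith
        have hi' : (i : ℝ) ≤ I0 := le_of_mul_le_mul_right hi e1p
        have hi'' : i ≤ I0 := by exact_mod_cast hi'
        omega
    · rcases Nat.eq_zero_or_pos d2 with h20 | h2p
      · -- `d2 = 0 < d1`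
        have l1 := low1 h1p
        have e2p : 0 < e2 := by
          rw [hF2, h20] at p2
          simpa using p2
        have jb : i ≤ Dm + 1 := by
          have h1 : (i : ℝ) * (N * q) ≤ (Dm + 1) * (N * q) := by
            have h4 : (i : ℝ) * (N * q) ≤ i * dg w F1 := mul_le_mul_of_nonneg_left l1 i0
            have h5 : 0 ≤ (j : ℝ) * dg w F2 := by positivity
            linarith
          have h2 : (i : ℝ) ≤ Dm + 1 := le_of_mul_le_mul_right h1 hNq0
          exact_mod_cast h2
        have hδ : (d3 : ℝ) - i * d1 = 0 := by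
          by_contra hδ
          have := hEx e2 he2 e1 he1 e3 he3 i (Finset.mem_range.mpr (by omega)) d1
            (Finset.mem_range.mpr (by omega)) d3 (Finset.mem_range.mpr (by omega)) e2p hδ (j : ℚ)
          apply this
          rw [hF1, hF2, hF3, h20] at hmm
          push_cast at hmm ⊢
          linarith
        have hi : (j : ℝ) * e2 ≤ I0 * e2 := by
          have h1 := hI0 e2 he2 e2p
          have h2 := hEm e3 he3
          rw [hF1, hF2, hF3, h20] at hmm
          have h3 : (d3 : ℝ) = i * d1 := by linarith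
          rw [h3] at hmm
          have h4 : 0 ≤ (i : ℝ) * e1 := by positivity
          push_cast at hmm
          linarith
        have hi' : (j : ℝ) ≤ I0 := le_of_mul_le_mul_right hi e2p
        have hi'' : j ≤ I0 := by exact_mod_cast hi'
        omega
      · have l1 := low1 h1p
        have l2 := low2 h2p
        have h1 : ((i : ℝ) + j) * (N * q) ≤ (Dm + 1) * (N * q) := by
          have h4 : (i : ℝ) * (N * q) ≤ i * dg w F1 := mul_le_mul_of_nonneg_left l1 i0
          have h5 : (j : ℝ) * (N * q) ≤ j * dg w F2 := mul_le_mul_of_nonneg_left l2 j0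
          nlinarith
        have h2 : (i : ℝ) + j ≤ Dm + 1 := le_of_mul_le_mul_right h1 hNq0
        have h3 : i + j ≤ Dm + 1 := by exact_mod_cast h2
        omega

end

end Pool.Agent.Lib.MP_e1f7e2_al.SU.H25
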