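import Pool.Agent.Lib.MP_e1f7e2_al.SU.H25.Lin

set_option autoImplicit false

/-!
Project SU3 (MP_e1f7e2_al): module INV, how a vertex given by a good frame can be reducible.
-/

open MvPolynomial

namespace Pool.Agent.Lib.MP_e1f7e2_al.SU.H25

section

variable {K : Type*} [Field K] {w : Fin 3 → ℝ}

/-! ### degrees of linear combinations of a good frame -/

lemma dg_c3 (F : DegFacts K w) {f3 : MvPolynomial (Fin 3) K} {c : K} (hc : c ≠ 0) (d : K) :
    dg w (C c * f3 + C d) = dg w f3 := by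
  apply le_antisymm
  · refine (F.add_le _ _).trans (max_le (F.Cmul_le _ _) ?_)
    rw [F.const]; exact F.nn _
  · have e : f3 = C c⁻¹ * (C c * f3 + C d) - C (c⁻¹ * d) := by
      have : (C c⁻¹ * C c : MvPolynomial (Fin 3) K) = 1 := by
        rw [← map_mul, inv_mul_cancel₀ hc, map_one]
      rw [map_mul]
      linear_combination (-f3) * this
    have h1 : dg w (C c⁻¹ * (C c * f3 + C d) - C (c⁻¹ * d)) ≤ dg w (C c * f3 + C d) := by
      refine (F.sub_le _ _).trans (max_le (F.Cmul_le _ _) ?_)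
      rw [F.const]; exact F.nn _
    rwa [← e] at h1

lemma dg_c2 (F : DegFacts K w) {f2 f3 : MvPolynomial (Fin 3) K} (h23 : dg w f3 < dg w f2)
    {b : K} (hb : b ≠ 0) (c d : K) :
    dg w (C b * f2 + C c * f3 + C d) = dg w f2 := by
  have h1 : dg w (C b * f2 + C c * f3) = dg w f2 := by
    rw [F.add_left, F.Cmul _ _ hb]
    rw [F.Cmul _ _ hb]
    exact (F.Cmul_le _ _).trans_lt h23
  rw [F.add_left, h1]
  rw [F.const, h1]
  exact (F.nn f3).trans_lt h23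

lemma dg_c1 (F : DegFacts K w) {f1 f2 f3 : MvPolynomial (Fin 3) K} (h12 : dg w f2 < dg w f1)
    (h23 : dg w f3 < dg w f2) {a : K} (ha : a ≠ 0) (b c d : K) :
    dg w (C a * f1 + C b * f2 + C c * f3 + C d) = dg w f1 := by
  have h1 : dg w (C a * f1 + C b * f2) = dg w f1 := by
    rw [F.add_left, F.Cmul _ _ ha]
    rw [F.Cmul _ _ ha]
    exact (F.Cmul_le _ _).trans_lt h12
  have h2 : dg w (C a * f1 + C b * f2 + C c * f3) = dg w f1 := by
    rw [F.add_left, h1]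
    rw [h1]
    exact (F.Cmul_le _ _).trans_lt (h23.trans h12)
  rw [F.add_left, h2]
  rw [F.const, h2]
  exact (F.nn f3).trans_lt (h23.trans h12)

/-- coordinates: the degree of a combination is at least the degree of each term -/
lemma dg_ge (F : DegFacts K w) {f1 f2 f3 : MvPolynomial (Fin 3) K} (h12 : dg w f2 < dg w f1)
    (h23 : dg w f3 < dg w f2) (a b c d : K) :
    (a ≠ 0 → dg w f1 ≤ dg w (C a * f1 + C b * f2 + C c * f3 + C d)) ∧
    (b ≠ 0 → dg w f2 ≤ dg w (C a * f1 + C b * f2 + C c * f3 + C d)) ∧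
    (c ≠ 0 → dg w f3 ≤ dg w (C a * f1 + C b * f2 + C c * f3 + C d)) := by
  by_cases ha : a = 0
  · have e : C a * f1 + C b * f2 + C c * f3 + C d = C b * f2 + C c * f3 + C d := by
      rw [ha]; simp
    rw [e]
    refine ⟨fun h => absurd ha h, ?_, ?_⟩
    · intro hb
      rw [dg_c2 F h23 hb]
    · intro hc
      by_cases hb : b = 0
      · have e : C b * f2 + C c * f3 + C d = C c * f3 + C d := by
          rw [hb]; simp
        rw [e, dg_c3 F hc]
      · rw [dg_c2 F h23 hb]; exact h23.le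
  · rw [dg_c1 F h12 h23 ha]
    exact ⟨fun _ => le_rfl, fun _ => h12.le, fun _ => (h23.trans h12).le⟩

/-- degree sums of frames are at least the degree sum of a good frame -/
lemma sum_ge (F : DegFacts K w) {f1 f2 f3 f g h : MvPolynomial (Fin 3) K}
    (hG : Good w f1 f2 f3) (H : Fr f g h) (hV : sp3 f1 f2 f3 = sp3 f g h) :
    dg w f1 + dg w f2 + dg w f3 ≤ dg w f + dg w g + dg w h := by
  have hf : f ∈ sp3 f1 f2 f3 := by rw [hV]; exact mem_sp3.mpr ⟨1, 0, 0, 0, by simp⟩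
  have hg : g ∈ sp3 f1 f2 f3 := by rw [hV]; exact mem_sp3.mpr ⟨0, 1, 0, 0, by simp⟩
  have hh : h ∈ sp3 f1 f2 f3 := by rw [hV]; exact mem_sp3.mpr ⟨0, 0, 1, 0, by simp⟩
  obtain ⟨a1, b1, c1, d1, rfl⟩ := mem_sp3.mp hf
  obtain ⟨a2, b2, c2, d2, rfl⟩ := mem_sp3.mp hg
  obtain ⟨a3, b3, c3, d3, rfl⟩ := mem_sp3.mp hh
  have hdet := det_ne H
  obtain ⟨A1, B1, C1⟩ := dg_ge F hG.d12 hG.d23 a1 b1 c1 d1
  obtain ⟨A2, B2, C2⟩ := dg_ge F hG.d12 hG.d23 a2 b2 c2 d2
  obtain ⟨A3, B3, C3⟩ := dg_ge F hG.d12 hG.d23 a3 b3 c3 d3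
  by_contra hlt
  apply hdet
  have key : ∀ x y z : K, ¬ (x ≠ 0 ∧ y ≠ 0 ∧ z ≠ 0) → x * y * z = 0 := by
    intro x y z h
    by_contra hne
    apply h
    refine ⟨?_, ?_, ?_⟩ <;> rintro rfl <;> apply hne <;> ring
  have k1 := key a1 b2 c3 (fun ⟨x, y, z⟩ => hlt (by linarith [A1 x, B2 y, C3 z]))
  have k2 := key a1 c2 b3 (fun ⟨x, y, z⟩ => hlt (by linarith [A1 x, C2 y, B3 z]))
  have k3 := key b1 a2 c3 (fun ⟨x, y, z⟩ => hlt (by linarith [B1 x, A2 y, C3 z]))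
  have k4 := key b1 c2 a3 (fun ⟨x, y, z⟩ => hlt (by linarith [B1 x, C2 y, A3 z]))
  have k5 := key c1 a2 b3 (fun ⟨x, y, z⟩ => hlt (by linarith [C1 x, A2 y, B3 z]))
  have k6 := key c1 b2 a3 (fun ⟨x, y, z⟩ => hlt (by linarith [C1 x, B2 y, A3 z]))
  linear_combination k1 - k2 - k3 + k4 + k5 - k6

/-- two good frames of the same vertex differ by a triangular change -/
lemma tri (F : DegFacts K w) {f1 f2 f3 h1 h2 h3 : MvPolynomial (Fin 3) K}
    (hG : Good w f1 f2 f3) (hH : Good w h1 h2 h3) (h3pos : 0 < dg w h3)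
    (hV : sp3 f1 f2 f3 = sp3 h1 h2 h3) :
    ∃ l1 b c d l2 m n l3 r : K, l1 ≠ 0 ∧ l2 ≠ 0 ∧ l3 ≠ 0 ∧
      h1 = C l1 * f1 + C b * f2 + C c * f3 + C d ∧ h2 = C l2 * f2 + C m * f3 + C n ∧
      h3 = C l3 * f3 + C r := by
  have hf : h1 ∈ sp3 f1 f2 f3 := by rw [hV]; exact mem_sp3.mpr ⟨1, 0, 0, 0, by simp⟩
  have hg : h2 ∈ sp3 f1 f2 f3 := by rw [hV]; exact mem_sp3.mpr ⟨0, 1, 0, 0, by simp⟩
  have hh : h3 ∈ sp3 f1 f2 f3 := by rw [hV]; exact mem_sp3.mpr ⟨0, 0, 1, 0, by simp⟩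
  obtain ⟨a1, b1, c1, d1, e1⟩ := mem_sp3.mp hf
  obtain ⟨a2, b2, c2, d2, e2⟩ := mem_sp3.mp hg
  obtain ⟨a3, b3, c3, d3, e3⟩ := mem_sp3.mp hh
  -- all degrees are at most `dg f1`
  have top : ∀ a b c d : K, dg w (C a * f1 + C b * f2 + C c * f3 + C d) ≤ dg w f1 := by
    intro a b c d
    refine (F.add_le _ _).trans (max_le ?_ (by rw [F.const]; exact F.nn _))
    refine (F.add_le _ _).trans (max_le ?_ ((F.Cmul_le _ _).trans (hG.d23.trans hG.d12).le))
    exact (F.add_le _ _).trans (max_le (F.Cmul_le _ _) ((F.Cmul_le _ _).trans hG.d12.le))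
  have t1 : dg w h1 ≤ dg w f1 := by rw [e1]; exact top _ _ _ _
  have g12 := hH.d12
  have g23 := hH.d23
  have z2 : a2 = 0 := by
    by_contra h
    have := dg_c1 F hG.d12 hG.d23 h b2 c2 d2
    rw [← e2] at this
    linarith
  have z3 : a3 = 0 := by
    by_contra h
    have := dg_c1 F hG.d12 hG.d23 h b3 c3 d3
    rw [← e3] at this
    linarith
  have e2' : h2 = C b2 * f2 + C c2 * f3 + C d2 := by rw [e2, z2]; simp
  have e3' : h3 = C b3 * f2 + C c3 * f3 + C d3 := by rw [e3, z3]; simp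
  have t2 : dg w h2 ≤ dg w f2 := by
    rw [e2']
    refine (F.add_le _ _).trans (max_le ?_ (by rw [F.const]; exact F.nn _))
    exact (F.add_le _ _).trans (max_le (F.Cmul_le _ _) ((F.Cmul_le _ _).trans hG.d23.le))
  have y3 : b3 = 0 := by
    by_contra h
    have := dg_c2 F hG.d23 h c3 d3
    rw [← e3'] at this
    linarith
  have e3'' : h3 = C c3 * f3 + C d3 := by rw [e3', y3]; simp
  have x3 : c3 ≠ 0 := by
    rintro h
    rw [e3'', h] at h3pos
    simp only [map_zero, zero_mul, zero_add, F.const] at h3pos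
    exact lt_irrefl _ h3pos
  have t3 : dg w h3 = dg w f3 := by rw [e3'']; exact dg_c3 F x3 _
  have x2 : b2 ≠ 0 := by
    rintro h
    have : dg w h2 ≤ dg w f3 := by
      rw [e2', h]
      simp only [map_zero, zero_mul, zero_add]
      refine (F.add_le _ _).trans (max_le (F.Cmul_le _ _) ?_)
      rw [F.const]; exact F.nn _
    linarith
  have t2' : dg w h2 = dg w f2 := by rw [e2']; exact dg_c2 F hG.d23 x2 _ _
  have x1 : a1 ≠ 0 := by
    rintro h
    have : dg w h1 ≤ dg w f2 := by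
      rw [e1, h]
      simp only [map_zero, zero_mul, zero_add]
      refine (F.add_le _ _).trans (max_le ?_ (by rw [F.const]; exact F.nn _))
      exact (F.add_le _ _).trans (max_le (F.Cmul_le _ _) ((F.Cmul_le _ _).trans hG.d23.le))
    linarith
  exact ⟨a1, b1, c1, d1, b2, c2, d2, c3, d3, x1, x2, x3, e1, e2', e3''⟩

/-- multiply by a constant and add a linear polynomial -/
lemma scale {l : K} (hl : l ≠ 0) (b c d : K) (P : MvPolynomial (Fin 2) K) :
    ∃ Q : MvPolynomial (Fin 2) K, ∀ x f g : MvPolynomial (Fin 3) K,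
      C l * x + C b * f + C c * g + C d + ev P f g = C l * (x + ev Q f g) := by
  refine ⟨C l⁻¹ * P + C (l⁻¹ * b) * X 0 + C (l⁻¹ * c) * X 1 + C (l⁻¹ * d), fun x f g => ?_⟩
  have h : (C l * C l⁻¹ : MvPolynomial (Fin 3) K) = 1 := by
    rw [← map_mul, mul_inv_cancel₀ hl, map_one]
  rw [ev_aff]
  simp only [map_mul]
  linear_combination (-(C b * f) - C c * g - C d - ev P f g) * h

/-- triangular change of generators -/
lemma sp3_tri {l1 l2 l3 : K} (h1 : l1 ≠ 0) (h2 : l2 ≠ 0) (h3 : l3 ≠ 0) (b c d m n r : K)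
    (x y z : MvPolynomial (Fin 3) K) :
    sp3 (C l1 * x + C b * y + C c * z + C d) (C l2 * y + C m * z + C n) (C l3 * z + C r) =
      sp3 x y z := by
  have t3 : ∀ u v : MvPolynomial (Fin 3) K, sp3 u v (C l3 * z + C r) = sp3 u v z := by
    intro u v
    have := sp3_aff3 (f := u) (g := v) (h := z) h3 0 0 r
    simpa using this
  have t2 : ∀ u : MvPolynomial (Fin 3) K, sp3 u (C l2 * y + C m * z + C n) z = sp3 u y z := by
    intro u
    have := sp3_aff1 (f := y) (g := z) (h := u) h2 m 0 n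
    rw [sp3_rot]
    simp only [map_zero, zero_mul, add_zero] at this
    rw [this, sp3_rot']
  rw [t3, t2, sp3_aff1 h1]

lemma br_comb (Fa : Facts K w) {l l' : K} (h : l ≠ 0) (h' : l' ≠ 0) (d d' : K)
    (x y : MvPolynomial (Fin 3) K) :
    br w (C l * x + C d) (C l' * y + C d') = br w x y := by
  rw [Fa.b.addC, Fa.b.Cmul _ _ _ h, Fa.b.comm, Fa.b.addC, Fa.b.Cmul _ _ _ h', Fa.b.comm]

theorem inv (Fa : Facts K w) (HK : KFactStatement K w) : InvStatement K w := by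
  intro f1 f2 f3 hG hR
  have F := Fa.d
  generalize hV : sp3 f1 f2 f3 = V at hR
  cases hR with
  | base f g h hf hd =>
    left
    exact (sum_ge F hG hf hV).trans hd
  | e1 h1 h2 h3 Q hf hd hr =>
    right; left
    obtain ⟨l1, b, c, d, l2, m, n, l3, r, x1, x2, x3, rfl, rfl, rfl⟩ :=
      tri F hG hf (Fa.b.dpos _ _ _ hf.fr.rot') hV
    obtain ⟨Q1, hQ1⟩ := ev_lin Q l2 m n 0 l3 r
    simp only [map_zero, zero_mul, zero_add] at hQ1
    obtain ⟨Q2, hQ2⟩ := scale x1 b c d Q1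
    have e : C l1 * f1 + C b * f2 + C c * f3 + C d +
      ev Q (C l2 * f2 + C m * f3 + C n) (C l3 * f3 + C r) = C l1 * (f1 + ev Q2 f2 f3) := by
      rw [hQ1, hQ2]
    rw [e] at hd hr
    refine ⟨Q2, ?_, ?_⟩
    · rw [F.Cmul _ _ x1, dg_c1 F hG.d12 hG.d23 x1] at hd
      exact hd
    · have s1 := sp3_tri x1 x2 x3 0 0 0 m n r (f1 + ev Q2 f2 f3) f2 f3
      simp only [map_zero, zero_mul, add_zero] at s1
      rwa [s1] at hr
  | e2 h1 h2 h3 P hf hd hr =>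
    right; right; left
    obtain ⟨l1, b, c, d, l2, m, n, l3, r, x1, x2, x3, rfl, rfl, rfl⟩ :=
      tri F hG hf (Fa.b.dpos _ _ _ hf.fr.rot') hV
    have hk : (C l1 * C l1⁻¹ : MvPolynomial (Fin 3) K) = 1 := by
      rw [← map_mul, mul_inv_cancel₀ x1, map_one]
    have e1 : C l1 * f1 + C b * f2 + C c * f3 + C d =
        C l1 * (f1 + C (l1⁻¹ * b) * f2) + C c * f3 + C d := by
      rw [map_mul]; linear_combination (-(C b * f2)) * hk
    obtain ⟨Q1, hQ1⟩ := ev_lin P l1 c d 0 l3 r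
    simp only [map_zero, zero_mul, zero_add] at hQ1
    obtain ⟨Q2, hQ2⟩ := scale x2 0 m n Q1
    simp only [map_zero, zero_mul, add_zero] at hQ2
    have e2 : C l2 * f2 + C m * f3 + C n +
        ev P (C l1 * f1 + C b * f2 + C c * f3 + C d) (C l3 * f3 + C r) =
        C l2 * (f2 + ev Q2 (f1 + C (l1⁻¹ * b) * f2) f3) := by
      rw [e1, hQ1, hQ2]
    rw [e2] at hd hr
    refine ⟨l1⁻¹ * b, Q2, ?_, ?_⟩
    · rw [F.Cmul _ _ x2, dg_c2 F hG.d23 x2] at hd
      exact hd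
    · have s1 := sp3_tri x1 x2 x3 0 c d 0 0 r (f1 + C (l1⁻¹ * b) * f2)
        (f2 + ev Q2 (f1 + C (l1⁻¹ * b) * f2) f3) f3
      simp only [map_zero, zero_mul, add_zero] at s1
      rw [e1, s1] at hr
      exact hr
  | e3 h1 h2 h3 P hf hd hr =>
    right; right; right; left
    obtain ⟨l1, b, c, d, l2, m, n, l3, r, x1, x2, x3, rfl, rfl, rfl⟩ :=
      tri F hG hf (Fa.b.dpos _ _ _ hf.fr.rot') hV
    have hk1 : (C l1 * C l1⁻¹ : MvPolynomial (Fin 3) K) = 1 := by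
      rw [← map_mul, mul_inv_cancel₀ x1, map_one]
    have hk2 : (C l2 * C l2⁻¹ : MvPolynomial (Fin 3) K) = 1 := by
      rw [← map_mul, mul_inv_cancel₀ x2, map_one]
    have e2 : C l2 * f2 + C m * f3 + C n = C l2 * (f2 + C (l2⁻¹ * m) * f3) + C n := by
      rw [map_mul]; linear_combination (-(C m * f3)) * hk2
    have e1 : C l1 * f1 + C b * f2 + C c * f3 + C d =
        C l1 * (f1 + C (l1⁻¹ * (c - b * (l2⁻¹ * m))) * f3) +
          C b * (f2 + C (l2⁻¹ * m) * f3) + C d := by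
      simp only [map_mul, map_sub]
      linear_combination (-(C c - C b * (C l2⁻¹ * C m)) * f3) * hk1
    obtain ⟨Q1, hQ1⟩ := ev_lin P l1 b d 0 l2 n
    simp only [map_zero, zero_mul, zero_add] at hQ1
    obtain ⟨Q2, hQ2⟩ := scale x3 0 0 r Q1
    simp only [map_zero, zero_mul, add_zero] at hQ2
    rw [e1, e2, hQ1, hQ2] at hd hr
    refine ⟨l1⁻¹ * (c - b * (l2⁻¹ * m)), l2⁻¹ * m, Q2, ?_, ?_⟩
    · rw [F.Cmul _ _ x3, dg_c3 F x3] at hd
      exact hd
    · have s1 := sp3_tri x1 x2 x3 b 0 d 0 n 0 (f1 + C (l1⁻¹ * (c - b * (l2⁻¹ * m))) * f3)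
        (f2 + C (l2⁻¹ * m) * f3)
        (f3 + ev Q2 (f1 + C (l1⁻¹ * (c - b * (l2⁻¹ * m))) * f3) (f2 + C (l2⁻¹ * m) * f3))
      simp only [map_zero, zero_mul, add_zero] at s1
      rw [s1] at hr
      exact hr
  | k h1 h2 h3 a P γ hk hr =>
    right; right; right; right
    have hf := (HK _ _ _ _ _ _ hk).good
    obtain ⟨l1, b, c, d, l2, m, n, l3, r, x1, x2, x3, rfl, rfl, rfl⟩ :=
      tri F hG hf (Fa.b.dpos _ _ _ hf.fr.rot') hV
    have hk1 : (C l1 * C l1⁻¹ : MvPolynomial (Fin 3) K) = 1 := by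
      rw [← map_mul, mul_inv_cancel₀ x1, map_one]
    have hk2 : (C l2 * C l2⁻¹ : MvPolynomial (Fin 3) K) = 1 := by
      rw [← map_mul, mul_inv_cancel₀ x2, map_one]
    obtain ⟨c1, hc1⟩ : ∃ c1, c1 = l1⁻¹ * b := ⟨_, rfl⟩
    obtain ⟨c2, hc2⟩ : ∃ c2, c2 = l1⁻¹ * (c + 2 * a * l3 * r) := ⟨_, rfl⟩
    obtain ⟨c3, hc3⟩ : ∃ c3, c3 = l2⁻¹ * m := ⟨_, rfl⟩
    obtain ⟨a', ha'⟩ : ∃ a', a' = l1⁻¹ * (a * l3 ^ 2) := ⟨_, rfl⟩
    have e2 : C l2 * f2 + C m * f3 + C n = C l2 * (f2 + C c3 * f3) + C n := by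
      rw [hc3, map_mul]; linear_combination (-(C m * f3)) * hk2
    have e1 : C l1 * f1 + C b * f2 + C c * f3 + C d + C a * (C l3 * f3 + C r) ^ 2 =
        C l1 * (f1 + C c1 * f2 + C c2 * f3 + C a' * f3 ^ 2) + C (d + a * r ^ 2) := by
      rw [hc1, hc2, ha']
      simp only [map_mul, map_add, map_pow, map_ofNat]
      linear_combination (-(C b * f2) - (C c + 2 * C a * C l3 * C r) * f3
        - C a * C l3 ^ 2 * f3 ^ 2) * hk1
    obtain ⟨Q1, hQ1⟩ := ev_lin P l1 0 (d + a * r ^ 2) 0 l2 n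
    simp only [map_zero, zero_mul, zero_add, add_zero] at hQ1
    obtain ⟨Q2, hQ2⟩ := scale x3 0 0 r Q1
    simp only [map_zero, zero_mul, add_zero] at hQ2
    have q1 := hk.h1
    have q2 := hk.h2
    have q3 := hk.h3
    have q4 := hk.h4
    have q5 := hk.h5
    rw [e1, dg_c3 F x1] at q1
    rw [e2, dg_c3 F x2] at q2
    rw [dg_c3 F x3] at q3
    rw [e1, e2, br_comb Fa x1 x2, dg_c3 F x3] at q4
    rw [e1, e2, br_comb Fa x1 x2, hQ1, hQ2, F.Cmul _ _ x3] at q5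
    refine ⟨c1, c2, c3, a', Q2, γ, ⟨?_, ?_, hk.hγ, q1, q2, q3, q4, q5⟩, ?_⟩
    · have t1 := hG.fr.elem1 (C c1 * X 0 + C c2 * X 1)
      rw [ev_add, ev_mul, ev_mul, ev_C, ev_C, ev_X0, ev_X1, ← add_assoc] at t1
      have t2 := t1.elem2 (C c3 * X 1)
      rw [ev_mul, ev_C, ev_X1] at t2
      exact t2
    · rw [ha']
      exact mul_ne_zero (inv_ne_zero x1) (mul_ne_zero hk.ha (pow_ne_zero _ x3))
    · rw [e1, e2, hQ1, hQ2] at hr
      have s1 := sp3_tri x1 x2 x3 0 0 (d + a * r ^ 2) 0 n 0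
        (f1 + C c1 * f2 + C c2 * f3 + C a' * f3 ^ 2) (f2 + C c3 * f3)
        (f3 + ev Q2 (f1 + C c1 * f2 + C c2 * f3 + C a' * f3 ^ 2) (f2 + C c3 * f3))
      simp only [map_zero, zero_mul, add_zero] at s1
      rw [s1] at hr
      exact hr

end

end Pool.Agent.Lib.MP_e1f7e2_al.SU.H25
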