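import Pool.Agent.Lib.MP_e1f7e2_al.SU.Iface

set_option autoImplicit false

/-!
Project SU3 (MP_e1f7e2_al): linear algebra of vertices (used by the modules INV and NB).
-/

open MvPolynomial

namespace Pool.Agent.Lib.MP_e1f7e2_al.SU.H25

section

variable {K : Type*} [Field K] {w : Fin 3 → ℝ}

/-- linear change of the two arguments of `ev` -/
lemma ev_lin (P : MvPolynomial (Fin 2) K) (a b c a' b' c' : K) :
    ∃ Q : MvPolynomial (Fin 2) K, ∀ f g : MvPolynomial (Fin 3) K,
      ev P (C a * f + C b * g + C c) (C a' * f + C b' * g + C c') = ev Q f g := by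
  refine ⟨aeval ![C a * X 0 + C b * X 1 + C c, C a' * X 0 + C b' * X 1 + C c'] P, fun f g => ?_⟩
  rw [← ev_comp]
  simp only [ev_add, ev_mul, ev_C, ev_X0, ev_X1]

/-- affine change of `P` -/
lemma ev_aff (P : MvPolynomial (Fin 2) K) (k a b c : K) (f g : MvPolynomial (Fin 3) K) :
    ev (C k * P + C a * X 0 + C b * X 1 + C c) f g = C k * ev P f g + C a * f + C b * g + C c := by
  simp only [ev_add, ev_mul, ev_C, ev_X0, ev_X1]

lemma D_comb (a b c d : K) (f g h : MvPolynomial (Fin 3) K) :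
    D (C a * f + C b * g + C c * h + C d) =
      (C a : MvPolynomial (Fin 3) K) • D f + (C b : MvPolynomial (Fin 3) K) • D g +
        (C c : MvPolynomial (Fin 3) K) • D h := by
  rw [D_add, D_add, D_add, D_Cmul, D_Cmul, D_Cmul, D_C, add_zero]

lemma jac_comb (a1 b1 c1 a2 b2 c2 a3 b3 c3 : K)
    (u v z : Fin 3 → MvPolynomial (Fin 3) K) :
    dt ((C a1 : MvPolynomial (Fin 3) K) • u + (C b1 : MvPolynomial (Fin 3) K) • v +
        (C c1 : MvPolynomial (Fin 3) K) • z)
      (cr ((C a2 : MvPolynomial (Fin 3) K) • u + (C b2 : MvPolynomial (Fin 3) K) • v +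
        (C c2 : MvPolynomial (Fin 3) K) • z)
        ((C a3 : MvPolynomial (Fin 3) K) • u + (C b3 : MvPolynomial (Fin 3) K) • v +
        (C c3 : MvPolynomial (Fin 3) K) • z)) =
      C (a1 * (b2 * c3 - c2 * b3) - b1 * (a2 * c3 - c2 * a3) + c1 * (a2 * b3 - b2 * a3)) *
        dt u (cr v z) := by
  simp only [dt, cr, Pi.add_apply, Pi.smul_apply, smul_eq_mul, Matrix.cons_val_zero,
    Matrix.cons_val_one, Matrix.cons_val, map_add, map_sub, map_mul]
  ring

lemma det_ne {a1 b1 c1 d1 a2 b2 c2 d2 a3 b3 c3 d3 : K} {f g h : MvPolynomial (Fin 3) K}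
    (H : Fr (C a1 * f + C b1 * g + C c1 * h + C d1) (C a2 * f + C b2 * g + C c2 * h + C d2)
      (C a3 * f + C b3 * g + C c3 * h + C d3)) :
    a1 * (b2 * c3 - c2 * b3) - b1 * (a2 * c3 - c2 * a3) + c1 * (a2 * b3 - b2 * a3) ≠ 0 := by
  intro h0
  obtain ⟨c, hc, h1⟩ := H
  rw [D_comb, D_comb, D_comb, jac_comb, h0, map_zero, zero_mul] at h1
  have h2 : (C c * (X 0 * X 1 * X 2) : MvPolynomial (Fin 3) K) ≠ 0 := by
    refine mul_ne_zero ?_ (mul_ne_zero (mul_ne_zero (X_ne_zero _) (X_ne_zero _)) (X_ne_zero _))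
    rwa [Ne, C_eq_zero]
  exact h2 h1.symm

/-- change of the generators of a plane -/
lemma sp3_plane {a b c a' b' c' : K} (h : a * b' - a' * b ≠ 0) (F G x : MvPolynomial (Fin 3) K) :
    sp3 (C a * F + C b * G + C c) (C a' * F + C b' * G + C c') x = sp3 F G x := by
  have hd : (C (a * b' - a' * b)⁻¹ * (C a * C b' - C a' * C b) : MvPolynomial (Fin 3) K) = 1 := by
    rw [← map_mul, ← map_mul, ← map_sub, ← map_mul, inv_mul_cancel₀ h, map_one]
  apply le_antisymm
  · refine sp3_le (mem_sp3.mpr ⟨a, b, 0, c, by simp⟩) (mem_sp3.mpr ⟨a', b', 0, c', by simp⟩)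
      (mem_sp3.mpr ⟨0, 0, 1, 0, by simp⟩)
  · refine sp3_le (mem_sp3.mpr ⟨(a * b' - a' * b)⁻¹ * b', -(a * b' - a' * b)⁻¹ * b, 0,
        -(a * b' - a' * b)⁻¹ * (b' * c - b * c'), ?_⟩)
      (mem_sp3.mpr ⟨-(a * b' - a' * b)⁻¹ * a', (a * b' - a' * b)⁻¹ * a, 0,
        -(a * b' - a' * b)⁻¹ * (a * c' - a' * c), ?_⟩) (mem_sp3.mpr ⟨0, 0, 1, 0, by simp⟩)
    · simp only [map_mul, map_neg, map_zero, map_sub]
      linear_combination (-F) * hd
    · simp only [map_mul, map_neg, map_zero, map_sub]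
      linear_combination (-G) * hd

/-- affine change of the third generator -/
lemma sp3_aff3 {f g h : MvPolynomial (Fin 3) K} {a : K} (ha : a ≠ 0) (b c d : K) :
    sp3 f g (C a * h + C b * f + C c * g + C d) = sp3 f g h := by
  rw [sp3_rot', sp3_aff1 ha, sp3_rot]

/-- the core of module NB -/
lemma nb_core {F G k : MvPolynomial (Fin 3) K} (a b c a' b' c' κ l m n : K)
    (H : Fr (C a * F + C b * G + C c) (C a' * F + C b' * G + C c')
      (C κ * k + C l * F + C m * G + C n)) (P : MvPolynomial (Fin 2) K) :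
    ∃ Q : MvPolynomial (Fin 2) K, sp3 (C a * F + C b * G + C c) (C a' * F + C b' * G + C c')
      ((C κ * k + C l * F + C m * G + C n) +
        ev P (C a * F + C b * G + C c) (C a' * F + C b' * G + C c')) =
      sp3 F G (k + ev Q F G) := by
  have H' : Fr (C a * F + C b * G + C 0 * k + C c) (C a' * F + C b' * G + C 0 * k + C c')
      (C l * F + C m * G + C κ * k + C n) := by
    have e1 : C a * F + C b * G + C 0 * k + C c = C a * F + C b * G + C c := by simp
    have e2 : C a' * F + C b' * G + C 0 * k + C c' = C a' * F + C b' * G + C c' := by simp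
    have e3 : C l * F + C m * G + C κ * k + C n = C κ * k + C l * F + C m * G + C n := by ring
    rw [e1, e2, e3]
    exact H
  have hdet := det_ne H'
  have hδ : a * b' - a' * b ≠ 0 := by
    rintro h0
    apply hdet
    linear_combination κ * h0
  have hκ : κ ≠ 0 := by
    rintro rfl
    apply hdet
    ring
  obtain ⟨Q, hQ⟩ := ev_lin P a b c a' b' c'
  refine ⟨C κ⁻¹ * Q + C (κ⁻¹ * l) * X 0 + C (κ⁻¹ * m) * X 1 + C (κ⁻¹ * n), ?_⟩
  rw [sp3_plane hδ, hQ, ev_aff]
  have hk : (C κ * C κ⁻¹ : MvPolynomial (Fin 3) K) = 1 := by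
    rw [← map_mul, mul_inv_cancel₀ hκ, map_one]
  have e : C κ * k + C l * F + C m * G + C n + ev Q F G =
      C κ * (k + (C κ⁻¹ * ev Q F G + C (κ⁻¹ * l) * F + C (κ⁻¹ * m) * G + C (κ⁻¹ * n))) +
        C 0 * F + C 0 * G + C 0 := by
    simp only [map_mul, map_zero]
    linear_combination (-(C l * F) - C m * G - C n - ev Q F G) * hk
  rw [e, sp3_aff3 hκ]

end

end Pool.Agent.Lib.MP_e1f7e2_al.SU.H25
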